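import Pool.Agent.Helper85_CYD.StG

/-! # CYD, module BAS -/

set_option autoImplicit false

open Polynomial IsLocalRing

namespace Pool.Agent.CYD

namespace H66

theorem norm_prod_le (s : Multiset ℂ) (h : ∀ r ∈ s, ‖r‖ < 1) : ‖s.prod‖ ≤ 1 := by
  induction s using Multiset.induction_on with
  | empty => simp
  | cons a s ih =>
    rw [Multiset.prod_cons, norm_mul]
    have h1 := h a (Multiset.mem_cons_self a s)
    have h2 := ih (fun r hr => h r (Multiset.mem_cons_of_mem hr))
    exact mul_le_one₀ h1.le (norm_nonneg _) h2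

theorem norm_prod_lt (s : Multiset ℂ) (h : ∀ r ∈ s, ‖r‖ < 1) (hs : 0 < Multiset.card s) :
    ‖s.prod‖ < 1 := by
  obtain ⟨a, ha⟩ := Multiset.card_pos_iff_exists_mem.mp hs
  obtain ⟨t, rfl⟩ := Multiset.exists_cons_of_mem ha
  rw [Multiset.prod_cons, norm_mul]
  have h1 := h a (Multiset.mem_cons_self a t)
  have h2 := norm_prod_le t (fun r hr => h r (Multiset.mem_cons_of_mem hr))
  calc ‖a‖ * ‖t.prod‖ ≤ ‖a‖ * 1 := mul_le_mul_of_nonneg_left h2 (norm_nonneg _)
    _ < 1 := by rw [mul_one]; exact h1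

end H66

open H66 in
theorem bas (hDisc : DiscStmt) (hCoe : CoeStmt) : BasStmt := by
  intro n g h F
  have hn := F.hn
  have hcoe := (hCoe n F.hs (by omega)).2
  have hφ : 0 < n.totient := Nat.totient_pos.mpr (by omega)
  have hfac := F.fac
  -- the constant coefficient
  have h0 : g.coeff 0 * h.coeff 0 = (cyclotomic n ℤ).coeff 1 := by
    rw [← mul_coeff_zero, hfac, coeff_derivative]
    simp
  have hg0 : g.coeff 0 = 1 ∨ g.coeff 0 = -1 := by
    apply Int.isUnit_iff.mp
    apply isUnit_of_mul_isUnit_left (y := h.coeff 0)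
    rw [h0]
    exact Int.isUnit_iff.mpr hcoe
  have hlc : g.leadingCoeff * h.leadingCoeff = ((n.totient : ℕ) : ℤ) := by
    rw [← leadingCoeff_mul, hfac, leadingCoeff_derivative, (cyclotomic.monic n ℤ).leadingCoeff,
      natDegree_cyclotomic, one_mul]
  have hg : g ≠ 0 := by
    rintro rfl
    have := F.hg
    simp at this
  have hh : h ≠ 0 := by
    rintro rfl
    have := F.hh
    simp at this
  have hdeg : g.natDegree + h.natDegree + 1 = n.totient := by
    rw [← natDegree_mul hg hh, hfac, natDegree_derivative, natDegree_cyclotomic]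
    omega
  refine ⟨hg0, ?_, hlc, hdeg⟩
  -- the leading coefficient
  set G : ℂ[X] := g.map (Int.castRingHom ℂ) with hGdef
  have hinj : Function.Injective (Int.castRingHom ℂ) := Int.cast_injective
  have hGdeg : G.natDegree = g.natDegree := natDegree_map_eq_of_injective hinj g
  have hGlc : G.leadingCoeff = ((g.leadingCoeff : ℤ) : ℂ) := by
    rw [hGdef, leadingCoeff_map_of_injective hinj]
    rfl
  have hG0 : G.coeff 0 = ((g.coeff 0 : ℤ) : ℂ) := by
    rw [hGdef, coeff_map]
    rfl
  have hroots : ∀ r ∈ G.roots, ‖r‖ < 1 := by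
    intro r hr
    by_contra hcon
    rw [not_lt] at hcon
    apply hDisc n (by omega) r hcon
    have h1 : aeval r g = 0 := by
      have h2 : G.IsRoot r := isRoot_of_mem_roots hr
      rw [IsRoot.def, hGdef, eval_map] at h2
      exact h2
    rw [← hfac, map_mul, h1, zero_mul]
  have hspl := IsAlgClosed.splits G
  have hcard : 0 < Multiset.card G.roots := by
    rw [← hspl.natDegree_eq_card_roots, hGdeg]
    exact F.hg
  have h1 := hspl.coeff_zero_eq_leadingCoeff_mul_prod_roots
  have h2 := norm_prod_lt _ hroots hcard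
  have h3 := congrArg norm h1
  rw [norm_mul, norm_mul, norm_pow, norm_neg, norm_one, one_pow, one_mul, hG0, hGlc] at h3
  have h4 : ‖((g.coeff 0 : ℤ) : ℂ)‖ = 1 := by
    rcases hg0 with h | h <;> rw [h] <;> simp
  rw [h4] at h3
  have h5 : ‖((g.leadingCoeff : ℤ) : ℂ)‖ = ((|g.leadingCoeff| : ℤ) : ℝ) := by
    rw [Complex.norm_intCast, Int.cast_abs]
  rw [h5] at h3
  by_contra hcon
  have h6 : |g.leadingCoeff| ≤ 1 := by omega
  have h7 : ((|g.leadingCoeff| : ℤ) : ℝ) ≤ 1 := by exact_mod_cast h6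
  have h8 : (0 : ℝ) ≤ ((|g.leadingCoeff| : ℤ) : ℝ) := by exact_mod_cast abs_nonneg _
  nlinarith [norm_nonneg G.roots.prod]

end Pool.Agent.CYD
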