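import Pool.Agent.Helper85_CYD.StG
import Pool.Agent.Helper85_CYD.St2

/-! # CYD, module OPR -/

set_option autoImplicit false

open Polynomial IsLocalRing

namespace Pool.Agent.CYD

namespace H66

theorem coe_aeval' {K : Type} [Field K] (A : ValuationSubring K) (x : A) (f : ℤ[X]) :
    ((aeval x f : A) : K) = aeval (x : K) f := by
  have h := Polynomial.aeval_algHom_apply A.subtype.toIntAlgHom x f
  exact h.symm

/-- roots of unity lie in all valuation rings -/
theorem mem_of_pow_eq_one {K : Type} [Field K] (A : ValuationSubring K) {z : K} {n : ℕ}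
    (hn : n ≠ 0) (hz : z ^ n = 1) : z ∈ A := by
  rw [← A.valuation_le_one_iff]
  have h1 : A.valuation z ^ n = 1 := by rw [← map_pow, hz, map_one]
  by_contra h
  rw [not_le] at h
  have h2 := one_lt_pow' h hn
  rw [h1] at h2
  exact lt_irrefl _ h2

theorem ww_ne {K : Type} [Field K] (u : ℕ → K) (n : ℕ) (hu : ∀ k, k.Coprime n → u k ≠ 0) :
    ∀ (T : List (ℕ × ℕ)), (∀ x ∈ T, x.1.Coprime n) → ∀ k, k.Coprime n → WW u T k ≠ 0
  | [], _, k, hk => hu k hk
  | x :: t, hT, k, hk => by
    have h1 := ww_ne u n hu t (fun y hy => hT y (List.mem_cons_of_mem _ hy))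
    have hx := hT x List.mem_cons_self
    exact div_ne_zero (h1 _ (Nat.Coprime.mul_left hx hk)) (h1 k hk)

theorem ww_one' {K : Type} [Field K] (A : ValuationSubring K) (u : ℕ → K) (n : ℕ)
    (hu : ∀ k, k.Coprime n → A.valuation (u k) = 1) :
    ∀ (T : List (ℕ × ℕ)), (∀ x ∈ T, x.1.Coprime n) → ∀ k, k.Coprime n →
      A.valuation (WW u T k) = 1
  | [], _, k, hk => hu k hk
  | x :: t, hT, k, hk => by
    have h1 := ww_one' A u n hu t (fun y hy => hT y (List.mem_cons_of_mem _ hy))
    have hx := hT x List.mem_cons_self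
    change A.valuation (WW u t (x.1 * k) / WW u t k) = 1
    rw [map_div₀, h1 _ (Nat.Coprime.mul_left hx hk), h1 k hk, div_one]

theorem ww_inv {K : Type} [Field K] (A : ValuationSubring K) (u : ℕ → K) (n : ℕ) (κ : ℕ)
    (hκ : κ.Coprime n)
    (hu : ∀ k, k.Coprime n → A.valuation (u (κ * k)) = A.valuation (u k)) :
    ∀ (T : List (ℕ × ℕ)), (∀ x ∈ T, x.1.Coprime n) → ∀ k, k.Coprime n →
      A.valuation (WW u T (κ * k)) = A.valuation (WW u T k)
  | [], _, k, hk => hu k hk
  | x :: t, hT, k, hk => by
    have h1 := ww_inv A u n κ hκ hu t (fun y hy => hT y (List.mem_cons_of_mem _ hy))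
    have hx := hT x List.mem_cons_self
    change A.valuation (WW u t (x.1 * (κ * k)) / WW u t (κ * k)) =
      A.valuation (WW u t (x.1 * k) / WW u t k)
    rw [map_div₀, map_div₀, mul_left_comm, h1 _ (Nat.Coprime.mul_left hx hk), h1 k hk]

theorem ww_val {K : Type} [Field K] (A : ValuationSubring K) (u : ℕ → K) (n : ℕ)
    (hu0 : ∀ k, k.Coprime n → u k ≠ 0) (P : ℕ → Prop)
    (hu : ∀ κ, P κ → κ.Coprime n → ∀ k, k.Coprime n →
      A.valuation (u (κ * k)) = A.valuation (u k)) :
    ∀ (T : List (ℕ × ℕ)), (∀ x ∈ T, x.1.Coprime n) → (∃ x ∈ T, P x.1) → ∀ k, k.Coprime n →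
      A.valuation (WW u T k) = 1
  | [], _, hP, _, _ => by
    obtain ⟨x, hx, _⟩ := hP
    exact absurd hx (List.not_mem_nil)
  | x :: t, hT, hP, k, hk => by
    have hTt : ∀ y ∈ t, y.1.Coprime n := fun y hy => hT y (List.mem_cons_of_mem _ hy)
    have hx := hT x List.mem_cons_self
    change A.valuation (WW u t (x.1 * k) / WW u t k) = 1
    obtain ⟨y, hy, hPy⟩ := hP
    rcases List.mem_cons.mp hy with rfl | hy
    · have h1 := ww_inv A u n y.1 hx (hu y.1 hPy hx) t hTt k hk
      rw [map_div₀, h1]
      apply div_self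
      rw [Valuation.ne_zero_iff]
      exact ww_ne u n hu0 t hTt k hk
    · have h1 := ww_val A u n hu0 P hu t hTt ⟨y, hy, hPy⟩
      rw [map_div₀, h1 _ (Nat.Coprime.mul_left hx hk), h1 k hk, div_one]

end H66

open H66 in
theorem opr (hUnt : UntStmt) (hAwy : AwyStmt) (hAbs : AbsStmt) (hKro : KroStmt) : OprStmt := by
  intro n g h F K _ _ _ z T hz hT hTl k hk
  have hn0 : n ≠ 0 := by have := F.hn; omega
  have hprim : ∀ j : ℕ, j.Coprime n → IsPrimitiveRoot (z ^ j) n := fun j hj =>
    hz.pow_of_coprime j hj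
  have habs := hAbs n g h F K
  have hu0 : ∀ j : ℕ, j.Coprime n → uu g (z ^ j) ≠ 0 := by
    intro j hj
    obtain ⟨h1, h2, _⟩ := habs _ (hprim j hj)
    exact div_ne_zero h2 h1
  refine hKro n F.ho K _ z hz ?_ ?_
  · intro A
    rw [← A.valuation_le_one_iff]
    apply le_of_eq
    by_cases hunit : IsUnit (n : A)
    · refine ww_one' A _ n ?_ T hT k hk
      intro j hj
      have hmem : z ^ j ∈ A := mem_of_pow_eq_one A hn0 (by
        rw [← pow_mul, mul_comm, pow_mul, hz.pow_eq_one, one_pow])
      have hp : IsPrimitiveRoot (⟨z ^ j, hmem⟩ : A) n := by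
        rw [← IsPrimitiveRoot.map_iff_of_injective (f := A.subtype) A.subtype_injective]
        exact hprim j hj
      obtain ⟨h1, h2⟩ := hAwy n g h F K A _ hunit hp
      have h3 := (A.valuation_eq_one_iff _).mp h1
      have h4 := (A.valuation_eq_one_iff _).mp h2
      rw [coe_aeval'] at h3 h4
      unfold uu
      rw [map_div₀, h3, h4, div_one]
    · -- some prime divisor of `n` is not a unit
      obtain ⟨l, hl, hln, hlA⟩ : ∃ l : ℕ, l.Prime ∧ l ∣ n ∧ (l : A) ∈ maximalIdeal A := by
        by_contra hcon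
        push Not at hcon
        apply hunit
        have key : ∀ j : ℕ, j ≠ 0 → (∀ l : ℕ, l.Prime → l ∣ j → IsUnit (l : A)) →
            IsUnit (j : A) := by
          intro j
          induction j using Nat.recOnMul with
          | zero => intro h; exact absurd rfl h
          | one => intro _ _; simp
          | prime p hp => intro _ h; exact h p hp dvd_rfl
          | mul a b iha ihb =>
            intro hab h
            have ha : a ≠ 0 := fun h0 => hab (by rw [h0, zero_mul])
            have hb : b ≠ 0 := fun h0 => hab (by rw [h0, mul_zero])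
            rw [Nat.cast_mul]
            exact (iha ha fun l hl hd => h l hl (hd.mul_right b)).mul
              (ihb hb fun l hl hd => h l hl (hd.mul_left a))
        refine key n hn0 fun l hl hln => ?_
        have h1 := hcon l hl hln
        rwa [IsLocalRing.mem_maximalIdeal, mem_nonunits_iff, not_not] at h1
      have hmem : z ∈ A := mem_of_pow_eq_one A hn0 hz.pow_eq_one
      have hp : IsPrimitiveRoot (⟨z, hmem⟩ : A) n := by
        rw [← IsPrimitiveRoot.map_iff_of_injective (f := A.subtype) A.subtype_injective]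
        exact hz
      refine ww_val A (fun j => uu g (z ^ j)) n hu0
        (fun κ => κ ≡ 1 [MOD n / l] ∨ κ ≡ l [MOD n / l]) ?_ T hT (hTl l hl hln) k hk
      intro κ hP hκ j hj
      exact hUnt n g h F K A ⟨z, hmem⟩ l κ j hl hln hlA hp hκ hj hP
  · intro φ
    have h1 : ∀ (T : List (ℕ × ℕ)), (∀ x ∈ T, x.1.Coprime n) → ∀ k, k.Coprime n →
        ‖φ (WW (fun j => uu g (z ^ j)) T k)‖ = 1 := by
      intro T
      induction T with
      | nil =>
        intro _ k hk
        exact (habs _ (hprim k hk)).2.2 φ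
      | cons x t ih =>
        intro hT k hk
        have h1 := ih (fun y hy => hT y (List.mem_cons_of_mem _ hy))
        have hx := hT x List.mem_cons_self
        change ‖φ (WW _ t (x.1 * k) / WW _ t k)‖ = 1
        rw [map_div₀, norm_div, h1 _ (Nat.Coprime.mul_left hx hk), h1 k hk, div_one]
    exact h1 T hT k hk

end Pool.Agent.CYD
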