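import Pool.Agent.Helper85_CYD.StG
import Pool.Agent.Helper85_CYD.St2

/-! # CYD, module UNT -/

set_option autoImplicit false

open Polynomial IsLocalRing

namespace Pool.Agent.CYD

namespace H66

theorem coe_aeval {K : Type} [Field K] (A : ValuationSubring K) (x : A) (f : ℤ[X]) :
    ((aeval x f : A) : K) = aeval (x : K) f := by
  have h := Polynomial.aeval_algHom_apply A.subtype.toIntAlgHom x f
  exact h.symm

theorem charP_residue {K : Type} [Field K] (A : ValuationSubring K) {l : ℕ} (hl : l.Prime)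
    (h : (l : A) ∈ maximalIdeal A) : CharP (ResidueField A) l := by
  rw [CharP.charP_iff_prime_eq_zero hl]
  have h1 : residue A (l : A) = 0 := (residue_eq_zero_iff _).mpr h
  rwa [map_natCast] at h1

theorem natCast_ne {L : Type} [Field L] {l : ℕ} [CharP L l] {k : ℕ} (h : ¬ l ∣ k) :
    (k : L) ≠ 0 := fun h1 => h ((CharP.cast_eq_zero_iff L l k).mp h1)

theorem val_pow {K : Type} [Field K] (A : ValuationSubring K) (z : A) {n : ℕ} (hn : n ≠ 0)
    (hz : z ^ n = 1) (k : ℕ) : A.valuation ((z : K) ^ k) = 1 := by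
  have h1 : IsUnit z := IsUnit.of_pow_eq_one hz hn
  have h2 := (A.valuation_eq_one_iff z).mp h1
  rw [map_pow, h2, one_pow]

end H66

open H66 in
theorem unt (hLoc : LocStmt) (hSum : SumStmt) (hFro : FroStmt) (hRmu : RmuStmt) (hSpl : SplStmt)
    (_hAbs : AbsStmt) : UntStmt := by
  intro n g h F K _ _ A z l κ k hl hln hlA hz hκ hk hcong
  obtain ⟨m, rfl⟩ := hln
  have hl0 : 0 < l := hl.pos
  have hn0 : l * m ≠ 0 := by have := F.hn; omega
  have hm1 : 1 ≤ m := Nat.one_le_iff_ne_zero.mpr (fun h0 => hn0 (by rw [h0, mul_zero]))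
  rw [Nat.mul_div_cancel_left m hl0] at hcong
  have hcop : l.Coprime m := Nat.coprime_of_squarefree_mul F.hs
  have hlm : ¬ l ∣ m := by rwa [Nat.Prime.coprime_iff_not_dvd hl] at hcop
  have := charP_residue A hl hlA
  have : Fact l.Prime := ⟨hl⟩
  obtain ⟨c, w, hc, hw, hzcw, hres⟩ := hSpl K A l m z hl hm1 hlm hz
  obtain ⟨hrc, _, hrz⟩ := hres hlA
  -- the valuation of `g (z ^ j)`
  have hval : ∀ j : ℕ, j.Coprime (l * m) →
      A.valuation (aeval ((z : K) ^ j) g) = A.valuation (((w - 1 : A) : K)) ^ (mu A g (c ^ j)) := by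
    intro j hj
    have hjl : ¬ l ∣ j := by
      rw [← Nat.Prime.coprime_iff_not_dvd hl]
      exact (Nat.Coprime.coprime_mul_right_right hj).symm
    have hjm : j.Coprime m := Nat.Coprime.coprime_mul_left_right hj
    have hprim : IsPrimitiveRoot (residue A (c ^ j)) m := by
      rw [map_pow, hrc]
      exact hrz.pow_of_coprime j hjm
    obtain ⟨h1, h2⟩ := hSum (l * m) l m g h F hl rfl (ResidueField A) _ hprim
    have h3 : mu A g (c ^ j) ≤ l - 2 := by
      unfold mu
      omega
    obtain ⟨C', hC', h4⟩ := hLoc K A l m (c ^ j) w g hl hlm hlA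
      (by rw [← pow_mul, mul_comm, pow_mul, hc.pow_eq_one, one_pow]) hw h1 h3
    obtain ⟨θ, h5, h6⟩ := h4 j hjl
    have h7 : IsUnit θ := by
      rw [← residue_ne_zero_iff_isUnit, h5]
      exact mul_ne_zero (pow_ne_zero _ (natCast_ne hjl)) hC'
    have h8 : z ^ j = c ^ j * w ^ j := by rw [hzcw, mul_pow]
    rw [← h8] at h6
    have h9 := congrArg (fun x : A => A.valuation (x : K)) h6
    rw [coe_aeval] at h9
    push_cast at h9
    rw [map_mul, map_pow, (A.valuation_eq_one_iff θ).mp h7, mul_one] at h9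
    rw [h9]
    push_cast
    rfl
  -- the multiplicities do not change
  have hmu : ∀ j : ℕ, mu A g (c ^ (κ * j)) = mu A g (c ^ j) := by
    intro j
    rcases hcong with h1 | h1
    · have h2 : c ^ κ = c := by
        have := pow_eq_pow_of_modEq h1 hc.pow_eq_one
        rwa [pow_one] at this
      rw [pow_mul, h2]
    · have h2 : c ^ κ = c ^ l := pow_eq_pow_of_modEq h1 hc.pow_eq_one
      have h3 : c ^ (κ * j) = (c ^ j) ^ l := by
        rw [pow_mul, h2, ← pow_mul, ← pow_mul, mul_comm]
      unfold mu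
      rw [h3, map_pow]
      exact hFro (ResidueField A) l g _
  -- the valuation of `g* (z ^ j)`
  have hvalr : ∀ j : ℕ, j.Coprime (l * m) →
      A.valuation (aeval ((z : K) ^ j) g.reverse) =
        A.valuation (((w - 1 : A) : K)) ^ (mu A g (c ^ (j * (l * m - 1)))) := by
    intro j hj
    have hzn : (z : K) ^ (l * m) = 1 := by
      have := congrArg (fun x : A => (x : K)) hz.pow_eq_one
      push_cast at this
      exact this
    have h1 : (z : K) ^ j * (z : K) ^ (j * (l * m - 1)) = 1 := by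
      rw [← pow_add]
      have : j + j * (l * m - 1) = (l * m) * j := by
        obtain ⟨q, hq⟩ : ∃ q, l * m = q + 1 := ⟨l * m - 1, by omega⟩
        rw [hq, Nat.add_sub_cancel]
        ring
      rw [this, pow_mul, hzn, one_pow]
    rw [(hRmu K g _ _ h1).2, map_mul, map_pow, val_pow A z hn0 hz.pow_eq_one, one_pow, one_mul]
    apply hval
    refine Nat.Coprime.mul_left hj ?_
    have h3 := F.hn
    have : (l * m - 1).Coprime (l * m - 1 + 1) := by simp
    rwa [Nat.sub_add_cancel (by omega)] at this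
  have hκk : (κ * k).Coprime (l * m) := Nat.Coprime.mul_left hκ hk
  unfold uu
  rw [map_div₀, map_div₀, hval _ hκk, hvalr _ hκk, hval _ hk, hvalr _ hk, hmu, mul_assoc, hmu]

end Pool.Agent.CYD
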